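import Pool.Agent.BVM.Quot

/-! # The axiom of choice in the quotient model -/

set_option autoImplicit false

namespace Pool.Agent.BVM

variable {𝔹 : Type} [CompleteBooleanAlgebra 𝔹]

namespace AxChoice

/-- the part of `b k` before which no earlier `b j` holds -/
def first {κ : Type} (r : κ → κ → Prop) (b : κ → 𝔹) (k : κ) : 𝔹 :=
  b k ⊓ ⨅ j : κ, ⨅ _ : r j k, (b j)ᶜ

theorem iSup_first {κ : Type} (r : κ → κ → Prop) (hr : WellFounded r) (b : κ → 𝔹) :
    (⨆ k, b k) ≤ ⨆ k, first r b k := by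
  refine iSup_le fun k => ?_
  induction k using hr.induction with
  | _ k ih =>
    have h1 : b k ≤ first r b k ⊔ ⨆ j : κ, ⨆ _ : r j k, b j := by
      have h2 : (⨅ j : κ, ⨅ _ : r j k, (b j)ᶜ) = (⨆ j : κ, ⨆ _ : r j k, b j)ᶜ := by
        simp only [compl_iSup]
      rw [first, h2, sup_comm, sup_inf_left, sup_compl_eq_top, inf_top_eq]
      exact le_sup_right
    refine h1.trans (sup_le (le_iSup (first r b) k) ?_)
    exact iSup₂_le fun j hj => ih j hj

/-- the choice set for a family of names -/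
def choiceN (x : BSet 𝔹) (r : (Σ i : x.idx, (x.fam i).idx) → (Σ i : x.idx, (x.fam i).idx) → Prop) :
    BSet 𝔹 :=
  ⟨(Σ i : x.idx, (x.fam i).idx), fun j => (x.fam j.1).fam j.2,
    fun j => ⨆ i : x.idx, x.val i ⊓ first r (fun l => bmem ((x.fam l.1).fam l.2) (x.fam i)) j⟩

/-- the value of `t_j` is the first enumerated element of `y` -/
def fst (x : BSet 𝔹) (r : (Σ i : x.idx, (x.fam i).idx) → (Σ i : x.idx, (x.fam i).idx) → Prop)
    (y : BSet 𝔹) (j : Σ i : x.idx, (x.fam i).idx) : 𝔹 :=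
  first r (fun l => bmem ((x.fam l.1).fam l.2) y) j

theorem fst_ext (x : BSet 𝔹)
    (r : (Σ i : x.idx, (x.fam i).idx) → (Σ i : x.idx, (x.fam i).idx) → Prop)
    (j : Σ i : x.idx, (x.fam i).idx) : Ext1 (fun y => fst x r y j) := by
  show Ext1 (fun y => bmem ((x.fam j.1).fam j.2) y ⊓
    ⨅ l : (Σ i : x.idx, (x.fam i).idx), ⨅ _ : r l j, (bmem ((x.fam l.1).fam l.2) y)ᶜ)
  refine (ext1_bmem_right _).inf ?_
  exact Ext1.iInf fun l => Ext1.iInf fun _ => (ext1_bmem_right _).compl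

theorem bmem_choiceN (z x : BSet 𝔹)
    (r : (Σ i : x.idx, (x.fam i).idx) → (Σ i : x.idx, (x.fam i).idx) → Prop) :
    bmem z (choiceN x r) = ⨆ j : (Σ i : x.idx, (x.fam i).idx), ⨆ i : x.idx,
      x.val i ⊓ fst x r (x.fam i) j ⊓ beq z ((x.fam j.1).fam j.2) := by
  have h : bmem z (choiceN x r) = ⨆ j : (Σ i : x.idx, (x.fam i).idx),
      (⨆ i : x.idx, x.val i ⊓ fst x r (x.fam i) j) ⊓ beq z ((x.fam j.1).fam j.2) := rfl
  rw [h]
  simp only [iSup_inf_eq]

/-- the Boolean value of: the elements of `x` are pairwise disjoint -/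
def dis (x : BSet 𝔹) : 𝔹 :=
  ⨅ y, bmem y x ⇨ ⨅ y', bmem y' x ⇨ ⨅ w, (bmem w y ⊓ bmem w y' ⇨ beq y y')

theorem dis_le (x y y' w : BSet 𝔹) :
    dis x ⊓ bmem y x ⊓ bmem y' x ⊓ (bmem w y ⊓ bmem w y') ≤ beq y y' := by
  have h1 : dis x ≤ bmem y x ⇨ ⨅ y', bmem y' x ⇨ ⨅ w, (bmem w y ⊓ bmem w y' ⇨ beq y y') :=
    iInf_le _ y
  rw [le_himp_iff] at h1
  have h2 : dis x ⊓ bmem y x ≤ bmem y' x ⇨ ⨅ w, (bmem w y ⊓ bmem w y' ⇨ beq y y') :=
    h1.trans (iInf_le _ y')
  rw [le_himp_iff] at h2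
  have h3 : dis x ⊓ bmem y x ⊓ bmem y' x ≤ (bmem w y ⊓ bmem w y' ⇨ beq y y') :=
    h2.trans (iInf_le _ w)
  rwa [le_himp_iff] at h3

/-- an element of the choice set lying in `y` is the first element of `y` -/
theorem mem_both (x y z : BSet 𝔹)
    (r : (Σ i : x.idx, (x.fam i).idx) → (Σ i : x.idx, (x.fam i).idx) → Prop) :
    dis x ⊓ bmem y x ⊓ (bmem z y ⊓ bmem z (choiceN x r)) ≤
      ⨆ j : (Σ i : x.idx, (x.fam i).idx), fst x r y j ⊓ beq z ((x.fam j.1).fam j.2) := by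
  rw [bmem_choiceN]
  simp only [inf_iSup_eq]
  refine iSup_le fun j => iSup_le fun i => ?_
  refine le_trans ?_ (le_iSup _ j)
  set P : 𝔹 := dis x ⊓ bmem y x ⊓ (bmem z y ⊓ (x.val i ⊓ fst x r (x.fam i) j ⊓
    beq z ((x.fam j.1).fam j.2))) with hP
  have p1 : P ≤ dis x := inf_le_left.trans inf_le_left
  have p2 : P ≤ bmem y x := inf_le_left.trans inf_le_right
  have p3 : P ≤ bmem z y := inf_le_right.trans inf_le_left
  have p4 : P ≤ x.val i := inf_le_right.trans (inf_le_right.trans (inf_le_left.trans inf_le_left))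
  have p5 : P ≤ fst x r (x.fam i) j :=
    inf_le_right.trans (inf_le_right.trans (inf_le_left.trans inf_le_right))
  have p6 : P ≤ beq z ((x.fam j.1).fam j.2) := inf_le_right.trans (inf_le_right.trans inf_le_right)
  have p7 : P ≤ bmem (x.fam i) x := p4.trans (val_le_bmem x i)
  have p8 : P ≤ bmem z (x.fam i) := by
    refine le_trans (le_inf ?_ (p5.trans inf_le_left)) (bmem_congr_left _ z (x.fam i))
    rw [beq_symm]
    exact p6
  have p9 : P ≤ beq (x.fam i) y := by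
    refine le_trans ?_ (dis_le x (x.fam i) y z)
    exact le_inf (le_inf (le_inf p1 p7) p2) (le_inf p8 p3)
  refine le_inf ?_ p6
  exact le_trans (le_inf p9 p5) (fst_ext x r j (x.fam i) y)

theorem fst_fst (x y : BSet 𝔹)
    (r : (Σ i : x.idx, (x.fam i).idx) → (Σ i : x.idx, (x.fam i).idx) → Prop)
    (j k : Σ i : x.idx, (x.fam i).idx) (h : r j k) : fst x r y j ⊓ fst x r y k ≤ ⊥ := by
  have h1 : fst x r y j ≤ bmem ((x.fam j.1).fam j.2) y := inf_le_left
  have h2 : fst x r y k ≤ (bmem ((x.fam j.1).fam j.2) y)ᶜ :=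
    inf_le_right.trans ((iInf_le _ j).trans (iInf_le _ h))
  calc fst x r y j ⊓ fst x r y k ≤ bmem ((x.fam j.1).fam j.2) y ⊓
        (bmem ((x.fam j.1).fam j.2) y)ᶜ := inf_le_inf h1 h2
    _ = ⊥ := inf_compl_self _

/-- uniqueness -/
theorem unique (x y z z' : BSet 𝔹)
    (r : (Σ i : x.idx, (x.fam i).idx) → (Σ i : x.idx, (x.fam i).idx) → Prop)
    (hr : ∀ j k, r j k ∨ j = k ∨ r k j) :
    dis x ⊓ bmem y x ⊓ (bmem z y ⊓ bmem z (choiceN x r)) ⊓
      (bmem z' y ⊓ bmem z' (choiceN x r)) ≤ beq z z' := by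
  have h1 : dis x ⊓ bmem y x ⊓ (bmem z y ⊓ bmem z (choiceN x r)) ⊓
      (bmem z' y ⊓ bmem z' (choiceN x r)) ≤
      (⨆ j : (Σ i : x.idx, (x.fam i).idx), fst x r y j ⊓ beq z ((x.fam j.1).fam j.2)) ⊓
      (⨆ j : (Σ i : x.idx, (x.fam i).idx), fst x r y j ⊓ beq z' ((x.fam j.1).fam j.2)) := by
    refine le_inf (inf_le_left.trans (mem_both x y z r)) ?_
    refine le_trans ?_ (mem_both x y z' r)
    exact inf_le_inf_right _ inf_le_left
  refine h1.trans ?_
  rw [iSup_inf_eq]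
  refine iSup_le fun j => ?_
  rw [inf_iSup_eq]
  refine iSup_le fun k => ?_
  have h2 : ∀ a b c d : 𝔹, a ⊓ b ⊓ (c ⊓ d) ≤ a ⊓ c := fun a b c d =>
    inf_le_inf inf_le_left inf_le_left
  rcases hr j k with h | h | h
  · exact (h2 _ _ _ _).trans ((fst_fst x y r j k h).trans bot_le)
  · subst h
    refine le_trans ?_ (beq_trans z ((x.fam j.1).fam j.2) z')
    refine le_inf (inf_le_left.trans inf_le_right) ?_
    rw [beq_symm _ z']
    exact inf_le_right.trans inf_le_right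
  · refine (h2 _ _ _ _).trans ?_
    rw [inf_comm]
    exact (fst_fst x y r k j h).trans bot_le

/-- existence -/
theorem exists_le (x y : BSet 𝔹)
    (r : (Σ i : x.idx, (x.fam i).idx) → (Σ i : x.idx, (x.fam i).idx) → Prop)
    (hr : WellFounded r) :
    bmem y x ⊓ (⨆ z, bmem z y) ≤ ⨆ z, bmem z y ⊓ bmem z (choiceN x r) := by
  rw [bmem_def y x, iSup_inf_eq]
  refine iSup_le fun i => ?_
  set P : 𝔹 := x.val i ⊓ beq y (x.fam i) ⊓ (⨆ z, bmem z y) with hP
  have p1 : P ≤ x.val i := inf_le_left.trans inf_le_left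
  have p2 : P ≤ beq y (x.fam i) := inf_le_left.trans inf_le_right
  have p3 : P ≤ ⨆ j : (Σ i : x.idx, (x.fam i).idx), bmem ((x.fam j.1).fam j.2) (x.fam i) := by
    have h1 : P ≤ ⨆ z, beq y (x.fam i) ⊓ bmem z y := by
      rw [← inf_iSup_eq]
      exact le_inf p2 inf_le_right
    refine h1.trans (iSup_le fun z => ?_)
    refine (bmem_congr_right z y (x.fam i)).trans ?_
    rw [bmem_def]
    refine iSup_le fun l => ?_
    refine le_trans (inf_le_left.trans (val_le_bmem (x.fam i) l)) ?_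
    exact le_iSup (fun j : (Σ i : x.idx, (x.fam i).idx) =>
      bmem ((x.fam j.1).fam j.2) (x.fam i)) ⟨i, l⟩
  have p4 : P ≤ ⨆ j : (Σ i : x.idx, (x.fam i).idx), fst x r (x.fam i) j :=
    p3.trans (iSup_first r hr _)
  have p5 : P ≤ P ⊓ ⨆ j : (Σ i : x.idx, (x.fam i).idx), fst x r (x.fam i) j := le_inf le_rfl p4
  refine p5.trans ?_
  rw [inf_iSup_eq]
  refine iSup_le fun j => ?_
  refine le_trans ?_ (le_iSup _ ((x.fam j.1).fam j.2))
  refine le_inf ?_ ?_
  · refine le_trans (le_inf ?_ (inf_le_right.trans inf_le_left))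
      (bmem_congr_right ((x.fam j.1).fam j.2) (x.fam i) y)
    rw [beq_symm]
    exact inf_le_left.trans p2
  · rw [bmem_choiceN]
    refine le_trans ?_ (le_iSup _ j)
    refine le_trans ?_ (le_iSup _ i)
    refine le_inf (le_inf (inf_le_left.trans p1) inf_le_right) ?_
    rw [beq_refl]
    exact le_top

end AxChoice

/-- Module I12: AxChoice.lean -/
theorem ax_choice (U : UF 𝔹) : ∀ x : Mod U, (∀ y, U.E y x → ∃ z, U.E z y) →
    (∀ y z, U.E y x → U.E z x → y ≠ z → ¬ ∃ w, U.E w y ∧ U.E w z) →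
    ∃ c, ∀ y, U.E y x → ∃! z, U.E z y ∧ U.E z c := by
  intro x hne hdis
  obtain ⟨x, rfl⟩ := Quotient.exists_rep x
  let r : (Σ i : x.idx, (x.fam i).idx) → (Σ i : x.idx, (x.fam i).idx) → Prop := WellOrderingRel
  have hwf : WellFounded r := (WellOrderingRel.isWellOrder
    (α := Σ i : x.idx, (x.fam i).idx)).toIsWellFounded.wf
  have htri : ∀ j k, r j k ∨ j = k ∨ r k j := by
    intro j k
    have : IsWellOrder (Σ i : x.idx, (x.fam i).idx) r := WellOrderingRel.isWellOrder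
    exact trichotomous_of r j k
  have hd : AxChoice.dis x ∈ U.carrier := by
    unfold AxChoice.dis
    refine (los_all U ?_).2 ?_
    · refine (ext1_bmem_left x).himp (Ext1.iInf fun y' => ?_)
      refine (Ext1.const _).himp (Ext1.iInf fun w => ?_)
      exact ((ext1_bmem_right w).inf (Ext1.const _)).himp (ext1_beq_left y')
    · intro y
      rw [UF.himp_mem_iff]
      intro hy
      refine (los_all U ?_).2 ?_
      · refine (ext1_bmem_left x).himp (Ext1.iInf fun w => ?_)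
        exact ((Ext1.const _).inf (ext1_bmem_right w)).himp (ext1_beq_right y)
      · intro y'
        rw [UF.himp_mem_iff]
        intro hy'
        refine (los_all U ?_).2 ?_
        · exact ((ext1_bmem_left y).inf (ext1_bmem_left y')).himp (Ext1.const _)
        · intro w
          rw [UF.himp_mem_iff, UF.inf_mem_iff]
          rintro ⟨hw, hw'⟩
          by_contra hcon
          refine hdis (Quotient.mk U.setoid y) (Quotient.mk U.setoid y') ((E_mk U y x).2 hy)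
            ((E_mk U y' x).2 hy') ?_ ⟨Quotient.mk U.setoid w, (E_mk U w y).2 hw,
              (E_mk U w y').2 hw'⟩
          intro heq
          exact hcon ((mk_eq_iff U y y').1 heq)
  refine ⟨Quotient.mk U.setoid (AxChoice.choiceN x r), fun y hy => ?_⟩
  obtain ⟨z₀, hz₀⟩ := hne y hy
  obtain ⟨y, rfl⟩ := Quotient.exists_rep y
  obtain ⟨z₀, rfl⟩ := Quotient.exists_rep z₀
  have hyx : bmem y x ∈ U.carrier := (E_mk U y x).1 hy
  have hzy : bmem z₀ y ∈ U.carrier := (E_mk U z₀ y).1 hz₀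
  have hex : (⨆ z, bmem z y ⊓ bmem z (AxChoice.choiceN x r)) ∈ U.carrier := by
    refine U.up (U.inf_mem hyx hzy) ?_
    refine le_trans ?_ (AxChoice.exists_le x y r hwf)
    exact inf_le_inf_left _ (le_iSup (fun z => bmem z y) z₀)
  obtain ⟨z, hz⟩ := (los_ex U ((ext1_bmem_left y).inf
    (ext1_bmem_left (AxChoice.choiceN x r)))).1 hex
  have hz1 := (UF.inf_mem_iff U).1 hz
  refine ⟨Quotient.mk U.setoid z, ⟨(E_mk U z y).2 hz1.1, (E_mk U z _).2 hz1.2⟩, ?_⟩
  rintro z' ⟨hz'y, hz'c⟩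
  obtain ⟨z', rfl⟩ := Quotient.exists_rep z'
  refine (mk_eq_iff U z' z).2 ?_
  refine U.up (U.inf_mem (U.inf_mem (U.inf_mem hd hyx)
    (U.inf_mem ((E_mk U z' y).1 hz'y) ((E_mk U z' _).1 hz'c)))
    (U.inf_mem hz1.1 hz1.2)) (AxChoice.unique x y z' z r htri)

end Pool.Agent.BVM
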