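import Pool.Agent.BVM.Quot

/-!
# Extensionality and foundation in the quotient model
-/

set_option autoImplicit false

namespace Pool.Agent.BVM

variable {𝔹 : Type} [CompleteBooleanAlgebra 𝔹]

theorem ax_ext (U : UF 𝔹) : ∀ x y : Mod U, (∀ z, U.E z x ↔ U.E z y) → x = y := by
  intro x y
  induction x using Quotient.inductionOn with
  | _ x =>
  induction y using Quotient.inductionOn with
  | _ y =>
  intro h
  rw [mk_eq_iff', beq_eq_iInf]
  rw [los_all U (f := fun z => (bmem z x ⇨ bmem z y) ⊓ (bmem z y ⇨ bmem z x))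
    (((ext1_bmem_left x).himp (ext1_bmem_left y)).inf ((ext1_bmem_left y).himp (ext1_bmem_left x)))]
  intro z
  rw [UF.inf_mem_iff, UF.himp_mem_iff, UF.himp_mem_iff]
  have := h (Quotient.mk U.setoid z)
  rw [E_mk, E_mk] at this
  exact ⟨this.1, this.2⟩

namespace AxExt

theorem found_aux (x0 : BSet 𝔹) (y : BSet 𝔹) :
    bmem y x0 ≤ ⨆ y' : BSet 𝔹, bmem y' x0 ⊓ ⨅ z : BSet 𝔹, (bmem z x0 ⇨ (bmem z y')ᶜ) := by
  induction y with
  | mk ι A B ih =>
    set b : 𝔹 := ⨆ y' : BSet 𝔹, bmem y' x0 ⊓ ⨅ z : BSet 𝔹, (bmem z x0 ⇨ (bmem z y')ᶜ) with hb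
    set y : BSet 𝔹 := BSet.mk ι A B with hy
    have h1 : ∀ z : BSet 𝔹, bmem z x0 ⊓ bmem z y ≤ b := by
      intro z
      rw [bmem_def z y, inf_iSup_eq]
      refine iSup_le fun j => ?_
      have h2 : bmem z x0 ⊓ (y.val j ⊓ beq z (y.fam j)) ≤ bmem (y.fam j) x0 := by
        refine le_trans ?_ (bmem_congr_left z (y.fam j) x0)
        exact le_inf (inf_le_right.trans inf_le_right) inf_le_left
      exact h2.trans (ih j)
    have h3 : bmem y x0 ⊓ bᶜ ≤ b := by
      refine le_trans ?_ (le_iSup (fun y' : BSet 𝔹 => bmem y' x0 ⊓ ⨅ z : BSet 𝔹,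
        (bmem z x0 ⇨ (bmem z y')ᶜ)) y)
      refine le_inf inf_le_left (le_iInf fun z => ?_)
      rw [le_himp_iff, le_compl_iff_disjoint_right, disjoint_iff]
      have h4 : bmem y x0 ⊓ bᶜ ⊓ bmem z x0 ⊓ bmem z y ≤ b ⊓ bᶜ := by
        refine le_inf (le_trans ?_ (h1 z)) ?_
        · exact le_inf (inf_le_left.trans inf_le_right) inf_le_right
        · exact inf_le_left.trans (inf_le_left.trans inf_le_right)
      rw [inf_compl_self] at h4
      exact le_bot_iff.1 h4
    have h5 : bmem y x0 ⊓ bᶜ ≤ ⊥ := by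
      rw [← inf_compl_self b]
      exact le_inf h3 inf_le_right
    rw [← compl_compl b, le_compl_iff_disjoint_right, disjoint_iff]
    exact le_bot_iff.1 h5

end AxExt

theorem ax_found (U : UF 𝔹) :
    ∀ x : Mod U, (∃ y, U.E y x) → ∃ y, U.E y x ∧ ∀ z, U.E z x → ¬ U.E z y := by
  intro x
  induction x using Quotient.inductionOn with
  | _ x =>
  rintro ⟨y, hy⟩
  induction y using Quotient.inductionOn with
  | _ y =>
  rw [E_mk] at hy
  have h1 := U.up hy (AxExt.found_aux x y)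
  rw [los_ex U (f := fun y' : BSet 𝔹 => bmem y' x ⊓ ⨅ z : BSet 𝔹, (bmem z x ⇨ (bmem z y')ᶜ))
    ((ext1_bmem_left x).inf (Ext1.iInf fun z => (Ext1.const _).himp (ext1_bmem_right z).compl))] at h1
  obtain ⟨y', hy'⟩ := h1
  rw [UF.inf_mem_iff, los_all U (f := fun z : BSet 𝔹 => (bmem z x ⇨ (bmem z y')ᶜ))
    ((ext1_bmem_left x).himp (ext1_bmem_left y').compl)] at hy'
  refine ⟨Quotient.mk U.setoid y', hy'.1, fun z => ?_⟩
  induction z using Quotient.inductionOn with
  | _ z =>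
  rw [E_mk, E_mk]
  have := hy'.2 z
  rw [UF.himp_mem_iff, UF.compl_mem_iff] at this
  exact this

end Pool.Agent.BVM
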