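import Pool.Agent.BVM.Quot

/-!
# Infinity in the quotient model
-/

set_option autoImplicit false

namespace Pool.Agent.BVM

variable {𝔹 : Type} [CompleteBooleanAlgebra 𝔹]

/-- the name of a natural number -/
def num : ℕ → BSet 𝔹
  | n => ⟨Fin n, fun i => num i.1, fun _ => ⊤⟩
  decreasing_by exact i.2

/-- the name of the set of natural numbers -/
def omegaN : BSet 𝔹 := ⟨ℕ, num, fun _ => ⊤⟩

theorem bmem_omegaN (x : BSet 𝔹) : bmem x omegaN = ⨆ n : ℕ, beq x (num n) := by
  rw [bmem_def]
  exact iSup_congr fun n => top_inf_eq _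

theorem bmem_num (x : BSet 𝔹) (n : ℕ) : bmem x (num n) = ⨆ k : ℕ, ⨆ _ : k < n, beq x (num k) := by
  rw [num, bmem]
  simp only [top_inf_eq]
  apply le_antisymm
  · exact iSup_le fun i => le_iSup₂_of_le i.1 i.2 le_rfl
  · exact iSup₂_le fun k hk => le_iSup_of_le (⟨k, hk⟩ : Fin n) le_rfl

namespace AxInf

theorem bmem_num_of_lt {m n : ℕ} (h : m < n) : bmem (num m : BSet 𝔹) (num n) = ⊤ := by
  rw [bmem_num, eq_top_iff]
  exact le_iSup₂_of_le m h (beq_refl _).ge

theorem beq_num_of_lt (m : ℕ) : ∀ k, k < m → beq (num m : BSet 𝔹) (num k) = ⊥ := by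
  induction m using Nat.strong_induction_on with
  | _ m ih =>
    intro k hk
    rw [eq_bot_iff]
    have h1 : beq (num m : BSet 𝔹) (num k) ≤ bmem (num k : BSet 𝔹) (num k) := by
      have h2 := bmem_congr_right (num k : BSet 𝔹) (num m) (num k)
      rw [bmem_num_of_lt hk, inf_top_eq] at h2
      exact h2
    refine h1.trans ?_
    rw [bmem_num]
    exact iSup₂_le fun j hj => (ih k hk j hj).le

/-- the successor name -/
def succN (x : BSet 𝔹) : BSet 𝔹 :=
  ⟨Option x.idx, fun o => o.elim x x.fam, fun o => o.elim ⊤ x.val⟩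

theorem bmem_succN (z x : BSet 𝔹) : bmem z (succN x) = bmem z x ⊔ beq z x := by
  rw [succN, bmem, iSup_option, bmem_def z x, sup_comm]
  simp only [Option.elim, top_inf_eq]

theorem beq_le_beq_succ (x : BSet 𝔹) (n : ℕ) : beq x (num n) ≤ beq (succN x) (num (n + 1)) := by
  have hnum : ∀ z : BSet 𝔹, bmem z (num (n + 1)) = bmem z (num n) ⊔ beq z (num n) := by
    intro z
    rw [bmem_num z (n + 1), bmem_num z n]
    apply le_antisymm
    · refine iSup₂_le fun k hk => ?_
      rcases Nat.lt_succ_iff_lt_or_eq.1 hk with h | h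
      · exact le_sup_of_le_left (le_iSup₂_of_le k h le_rfl)
      · subst h
        exact le_sup_right
    · refine sup_le (iSup₂_le fun k hk => le_iSup₂_of_le k (hk.trans (Nat.lt_succ_self n)) le_rfl) ?_
      exact le_iSup₂_of_le n (Nat.lt_succ_self n) le_rfl
  rw [beq_eq_iInf (succN x)]
  refine le_iInf fun z => ?_
  rw [hnum, bmem_succN]
  refine le_inf ?_ ?_
  · rw [le_himp_iff, inf_sup_left]
    refine sup_le (le_sup_of_le_left (bmem_congr_right z x (num n))) (le_sup_of_le_right ?_)
    rw [inf_comm]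
    exact beq_trans z x (num n)
  · rw [le_himp_iff, inf_sup_left]
    refine sup_le (le_sup_of_le_left ?_) (le_sup_of_le_right ?_)
    · rw [beq_symm x (num n)]
      exact bmem_congr_right z (num n) x
    · rw [beq_symm x (num n), inf_comm]
      exact beq_trans z (num n) x

end AxInf

theorem beq_num (m n : ℕ) : beq (num m : BSet 𝔹) (num n) = if m = n then ⊤ else ⊥ := by
  split_ifs with h
  · rw [h, beq_refl]
  · rcases lt_or_gt_of_ne h with h | h
    · rw [beq_symm]
      exact AxInf.beq_num_of_lt n m h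
    · exact AxInf.beq_num_of_lt m n h

theorem bmem_num_num (m n : ℕ) : bmem (num m : BSet 𝔹) (num n) = if m < n then ⊤ else ⊥ := by
  split_ifs with h
  · exact AxInf.bmem_num_of_lt h
  · rw [bmem_num, eq_bot_iff]
    refine iSup₂_le fun k hk => ?_
    rw [beq_num, if_neg (by omega)]

theorem ax_infinity (U : UF 𝔹) : ∃ w : Mod U, (∃ e, U.E e w ∧ ∀ z, ¬ U.E z e) ∧
    ∀ x, U.E x w → ∃ y, U.E y w ∧ ∀ z, U.E z y ↔ U.E z x ∨ z = x := by
  refine ⟨Quotient.mk U.setoid omegaN, ⟨Quotient.mk U.setoid (num 0), ?_, ?_⟩, ?_⟩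
  · rw [E_mk, bmem_omegaN]
    refine U.up U.top_mem ?_
    exact le_iSup_of_le 0 (beq_refl _).ge
  · intro z
    induction z using Quotient.inductionOn with
    | _ z =>
    rw [E_mk, bmem_num]
    simp only [not_lt_zero, iSup_false, iSup_bot]
    exact U.bot_notMem
  · intro x
    induction x using Quotient.inductionOn with
    | _ x =>
    intro hx
    rw [E_mk, bmem_omegaN] at hx
    refine ⟨Quotient.mk U.setoid (AxInf.succN x), ?_, ?_⟩
    · rw [E_mk, bmem_omegaN]
      refine U.up hx (iSup_le fun n => le_iSup_of_le (n + 1) (AxInf.beq_le_beq_succ x n))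
    · intro z
      induction z using Quotient.inductionOn with
      | _ z =>
      rw [E_mk, E_mk, mk_eq_iff', AxInf.bmem_succN, UF.sup_mem_iff]

end Pool.Agent.BVM
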