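import Pool.Agent.BVM.Quot

/-! Module I7 of the Boolean-valued model of ZFC: pairing and union. -/

set_option autoImplicit false

namespace Pool.Agent.BVM

variable {𝔹 : Type} [CompleteBooleanAlgebra 𝔹]

/-- the name of the unordered pair -/
def pairN (x y : BSet 𝔹) : BSet 𝔹 := ⟨Bool, fun b => cond b x y, fun _ => ⊤⟩

theorem bmem_pairN (w x y : BSet 𝔹) : bmem w (pairN x y) = beq w x ⊔ beq w y := by
  show (⨆ b : Bool, (⊤ : 𝔹) ⊓ beq w (cond b x y)) = _
  rw [iSup_bool_eq]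
  simp

theorem ax_pair (U : UF 𝔹) : ∀ x y : Mod U, ∃ z, ∀ w, U.E w z ↔ w = x ∨ w = y := by
  intro x y
  induction x using Quotient.inductionOn with | _ x => ?_
  induction y using Quotient.inductionOn with | _ y => ?_
  refine ⟨Quotient.mk U.setoid (pairN x y), fun w => ?_⟩
  induction w using Quotient.inductionOn with | _ w => ?_
  have h1 := E_mk U w (pairN x y)
  have h2 := mk_eq_iff U w x
  have h3 := mk_eq_iff U w y
  rw [bmem_pairN, UF.sup_mem_iff] at h1
  exact h1.trans (or_congr h2.symm h3.symm)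

/-- the name of the union -/
def unionN (x : BSet 𝔹) : BSet 𝔹 :=
  ⟨(Σ i : x.idx, (x.fam i).idx), fun p => (x.fam p.1).fam p.2, fun p => x.val p.1 ⊓ (x.fam p.1).val p.2⟩

theorem bmem_unionN (z x : BSet 𝔹) : bmem z (unionN x) = ⨆ w, bmem w x ⊓ bmem z w := by
  rw [bex_eq (ext1_bmem_right z) x]
  show (⨆ p : (Σ i : x.idx, (x.fam i).idx),
    (x.val p.1 ⊓ (x.fam p.1).val p.2) ⊓ beq z ((x.fam p.1).fam p.2)) = _
  rw [iSup_sigma]
  refine iSup_congr fun i => ?_
  rw [bmem_def z (x.fam i), inf_iSup_eq]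
  refine iSup_congr fun j => ?_
  exact inf_assoc _ _ _

theorem ax_union (U : UF 𝔹) : ∀ x : Mod U, ∃ y, ∀ z, U.E z y ↔ ∃ w, U.E w x ∧ U.E z w := by
  intro x
  induction x using Quotient.inductionOn with | _ x => ?_
  refine ⟨Quotient.mk U.setoid (unionN x), fun z => ?_⟩
  induction z using Quotient.inductionOn with | _ z => ?_
  have h1 := E_mk U z (unionN x)
  rw [bmem_unionN, los_ex U ((ext1_bmem_left x).inf (ext1_bmem_right z))] at h1
  refine h1.trans ⟨?_, ?_⟩
  · rintro ⟨w, hw⟩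
    rw [UF.inf_mem_iff] at hw
    exact ⟨Quotient.mk U.setoid w, (E_mk U w x).2 hw.1, (E_mk U z w).2 hw.2⟩
  · rintro ⟨w, hw1, hw2⟩
    induction w using Quotient.inductionOn with | _ w => ?_
    exact ⟨w, (UF.inf_mem_iff U).2 ⟨(E_mk U w x).1 hw1, (E_mk U z w).1 hw2⟩⟩

end Pool.Agent.BVM
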