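import Pool.Agent.BVM.Quot

/-! Module I8 of the Boolean-valued model of ZFC: power set. -/

set_option autoImplicit false

namespace Pool.Agent.BVM

variable {𝔹 : Type} [CompleteBooleanAlgebra 𝔹]

/-- the Boolean value of inclusion -/
def bsub (x y : BSet 𝔹) : 𝔹 := ⨅ w, bmem w x ⇨ bmem w y

/-- the name of the power set -/
def powerN (x : BSet 𝔹) : BSet 𝔹 :=
  ⟨x.idx → 𝔹, fun c => ⟨x.idx, x.fam, c⟩, fun c => ⨅ i, c i ⇨ bmem (x.fam i) x⟩

theorem bmem_powerN (z x : BSet 𝔹) : bmem z (powerN x) = bsub z x := by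
  show (⨆ c : x.idx → 𝔹, (⨅ i, c i ⇨ bmem (x.fam i) x) ⊓ beq z ⟨x.idx, x.fam, c⟩) = _
  apply le_antisymm
  · refine iSup_le fun c => le_iInf fun w => ?_
    rw [le_himp_iff]
    -- the weight of `c` gives inclusion of the subset
    have h1 : (⨅ i, c i ⇨ bmem (x.fam i) x) ≤
        bmem w (⟨x.idx, x.fam, c⟩ : BSet 𝔹) ⇨ bmem w x := by
      have := ball_eq (ext1_bmem_left x) (⟨x.idx, x.fam, c⟩ : BSet 𝔹)
      refine le_trans (le_of_eq this.symm) (iInf_le _ w)
    have h2 : beq z (⟨x.idx, x.fam, c⟩ : BSet 𝔹) ⊓ bmem w z ≤ bmem w ⟨x.idx, x.fam, c⟩ :=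
      bmem_congr_right w z _
    calc (⨅ i, c i ⇨ bmem (x.fam i) x) ⊓ beq z ⟨x.idx, x.fam, c⟩ ⊓ bmem w z
        = (⨅ i, c i ⇨ bmem (x.fam i) x) ⊓ (beq z ⟨x.idx, x.fam, c⟩ ⊓ bmem w z) := inf_assoc _ _ _
      _ ≤ (bmem w (⟨x.idx, x.fam, c⟩ : BSet 𝔹) ⇨ bmem w x) ⊓ bmem w ⟨x.idx, x.fam, c⟩ :=
          inf_le_inf h1 h2
      _ ≤ bmem w x := himp_inf_le
  · -- the subset of `x` with weights `bmem (x.fam i) z`
    refine le_trans ?_ (le_iSup _ (fun i => bmem (x.fam i) z ⊓ bmem (x.fam i) x))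
    refine le_inf ?_ ?_
    · refine le_iInf fun i => ?_
      rw [le_himp_iff]
      exact inf_le_right.trans inf_le_right
    · rw [beq_eq_iInf]
      refine le_iInf fun w => le_inf ?_ ?_
      · rw [le_himp_iff]
        have h1 : bsub z x ⊓ bmem w z ≤ bmem w x ⊓ bmem w z := by
          refine le_inf ?_ inf_le_right
          exact (inf_le_inf_right _ (iInf_le _ w)).trans himp_inf_le
        refine h1.trans ?_
        rw [bmem_def w x, iSup_inf_eq]
        refine iSup_le fun i => ?_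
        show _ ≤ ⨆ j : x.idx, (bmem (x.fam j) z ⊓ bmem (x.fam j) x) ⊓ beq w (x.fam j)
        refine le_trans ?_ (le_iSup _ i)
        refine le_inf (le_inf ?_ ?_) ?_
        · refine le_trans ?_ (bmem_congr_left w (x.fam i) z)
          exact inf_le_inf_right _ inf_le_right
        · exact (inf_le_left.trans inf_le_left).trans (val_le_bmem x i)
        · exact inf_le_left.trans inf_le_right
      · rw [le_himp_iff]
        refine inf_le_right.trans ?_
        show (⨆ j : x.idx, (bmem (x.fam j) z ⊓ bmem (x.fam j) x) ⊓ beq w (x.fam j)) ≤ _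
        refine iSup_le fun j => ?_
        refine le_trans ?_ (bmem_congr_left (x.fam j) w z)
        rw [beq_symm (x.fam j) w]
        exact le_inf inf_le_right (inf_le_left.trans inf_le_left)

theorem ax_power (U : UF 𝔹) : ∀ x : Mod U, ∃ y, ∀ z, U.E z y ↔ ∀ w, U.E w z → U.E w x := by
  intro x
  induction x using Quotient.inductionOn with | _ x => ?_
  refine ⟨Quotient.mk U.setoid (powerN x), fun z => ?_⟩
  induction z using Quotient.inductionOn with | _ z => ?_
  have h1 := E_mk U z (powerN x)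
  rw [bmem_powerN, bsub, los_all U ((ext1_bmem_left z).himp (ext1_bmem_left x))] at h1
  refine h1.trans ⟨?_, ?_⟩
  · intro h w hw
    induction w using Quotient.inductionOn with | _ w => ?_
    exact (E_mk U w x).2 ((UF.himp_mem_iff U).1 (h w) ((E_mk U w z).1 hw))
  · intro h w
    exact (UF.himp_mem_iff U).2 fun hw => (E_mk U w x).1 (h (Quotient.mk U.setoid w) ((E_mk U w z).2 hw))

end Pool.Agent.BVM
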