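import Pool.Agent.BVM.AxSep

/-! # The replacement schema in the quotient model -/

set_option autoImplicit false

namespace Pool.Agent.BVM

variable {𝔹 : Type} [CompleteBooleanAlgebra 𝔹]

namespace AxRepl

theorem ext_fst {n : ℕ} (φ : Fml (n + 2)) (w : BSet 𝔹) (q : Fin n → BSet 𝔹) :
    Ext1 (fun z => bval φ (Fin.cons z (Fin.cons w q : Fin (n + 1) → BSet 𝔹) :
      Fin (n + 2) → BSet 𝔹)) :=
  bval_ext1 φ _

theorem ext_snd {n : ℕ} (φ : Fml (n + 2)) (z : BSet 𝔹) (q : Fin n → BSet 𝔹) :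
    Ext1 (fun w => bval φ (Fin.cons z (Fin.cons w q : Fin (n + 1) → BSet 𝔹) :
      Fin (n + 2) → BSet 𝔹)) := by
  intro w w'
  refine le_trans ?_ (bval_ext φ (Fin.cons z (Fin.cons w q)) (Fin.cons z (Fin.cons w' q)))
  refine inf_le_inf_right _ (le_iInf fun i => ?_)
  refine Fin.cases ?_ (fun k => ?_) i
  · simp only [Fin.cons_zero, beq_refl]
    exact le_top
  · simp only [Fin.cons_succ]
    refine Fin.cases ?_ (fun l => ?_) k
    · simp only [Fin.cons_zero]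
      exact le_rfl
    · simp only [Fin.cons_succ, beq_refl]
      exact le_top

/-- the semantic form of replacement -/
theorem main (U : UF 𝔹) (F : BSet 𝔹 → BSet 𝔹 → 𝔹) (h1 : ∀ w, Ext1 (fun z => F z w))
    (h2 : ∀ z, Ext1 (fun w => F z w)) (x : BSet 𝔹)
    (hu : ∀ z, bmem z x ∈ U.carrier → ∀ w w', F z w ∈ U.carrier → F z w' ∈ U.carrier →
      beq w w' ∈ U.carrier) :
    ∃ y : BSet 𝔹, ∀ w, bmem w y ∈ U.carrier ↔
      ∃ z, bmem z x ∈ U.carrier ∧ F z w ∈ U.carrier := by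
  have hw : ∀ i : x.idx, ∃ w, F (x.fam i) w = ⨆ w, F (x.fam i) w := fun i => full (h2 _)
  choose w hw using hw
  refine ⟨⟨x.idx, w, fun i => x.val i ⊓ F (x.fam i) (w i)⟩, fun v => ?_⟩
  have hb : bmem v ⟨x.idx, w, fun i => x.val i ⊓ F (x.fam i) (w i)⟩ =
      ⨆ i : x.idx, (x.val i ⊓ F (x.fam i) (w i)) ⊓ beq v (w i) := rfl
  rw [hb]
  constructor
  · intro h
    have h3 : (⨆ z, bmem z x ⊓ F z v) ∈ U.carrier := by
      refine U.up h ?_
      refine iSup_le fun i => ?_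
      refine le_trans ?_ (le_iSup _ (x.fam i))
      refine le_inf ((inf_le_left.trans inf_le_left).trans (val_le_bmem x i)) ?_
      refine le_trans ?_ (h2 (x.fam i) (w i) v)
      rw [beq_symm (w i) v]
      exact le_inf inf_le_right (inf_le_left.trans inf_le_right)
    obtain ⟨z, hz⟩ := (los_ex U ((ext1_bmem_left x).inf (h1 v))).1 h3
    exact ⟨z, (UF.inf_mem_iff U).1 hz⟩
  · rintro ⟨z, hzx, hzv⟩
    have hu' : (⨅ z, bmem z x ⇨ ⨅ w, ⨅ w', (F z w ⊓ F z w' ⇨ beq w w')) ∈ U.carrier := by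
      refine (los_all U ?_).2 ?_
      · refine (ext1_bmem_left x).himp ?_
        refine Ext1.iInf fun w => Ext1.iInf fun w' => ?_
        exact ((h1 w).inf (h1 w')).himp (Ext1.const _)
      · intro z
        rw [UF.himp_mem_iff]
        intro hz
        refine (los_all U ?_).2 ?_
        · refine Ext1.iInf fun w' => ?_
          exact ((h2 z).inf (Ext1.const _)).himp (ext1_beq_left w')
        · intro a
          refine (los_all U ?_).2 ?_
          · exact ((Ext1.const _).inf (h2 z)).himp (ext1_beq_right a)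
          · intro b
            rw [UF.himp_mem_iff, UF.inf_mem_iff]
            rintro ⟨ha, hb⟩
            exact hu z hz a b ha hb
    refine U.up (U.inf_mem hu' (U.inf_mem hzx hzv)) ?_
    set u : 𝔹 := ⨅ z, bmem z x ⇨ ⨅ w, ⨅ w', (F z w ⊓ F z w' ⇨ beq w w') with hudef
    rw [bmem_def z x, iSup_inf_eq, inf_iSup_eq]
    refine iSup_mono fun i => ?_
    -- the piece of index i
    have a1 : u ⊓ (x.val i ⊓ beq z (x.fam i) ⊓ F z v) ≤ x.val i :=
      inf_le_right.trans (inf_le_left.trans inf_le_left)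
    have a2 : u ⊓ (x.val i ⊓ beq z (x.fam i) ⊓ F z v) ≤ F (x.fam i) v := by
      refine le_trans ?_ (h1 v z (x.fam i))
      refine inf_le_right.trans ?_
      exact inf_le_inf_right _ inf_le_right
    have a3 : u ⊓ (x.val i ⊓ beq z (x.fam i) ⊓ F z v) ≤ F (x.fam i) (w i) := by
      rw [hw i]
      exact a2.trans (le_iSup (fun w => F (x.fam i) w) v)
    have a4 : u ⊓ (x.val i ⊓ beq z (x.fam i) ⊓ F z v) ≤ beq v (w i) := by
      have b1 : u ≤ bmem (x.fam i) x ⇨ ⨅ w, ⨅ w', (F (x.fam i) w ⊓ F (x.fam i) w' ⇨ beq w w') :=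
        iInf_le _ (x.fam i)
      have b2 : u ⊓ (x.val i ⊓ beq z (x.fam i) ⊓ F z v) ≤
          ⨅ w, ⨅ w', (F (x.fam i) w ⊓ F (x.fam i) w' ⇨ beq w w') := by
        rw [le_himp_iff] at b1
        exact le_trans (le_inf inf_le_left (a1.trans (val_le_bmem x i))) b1
      have b3 : u ⊓ (x.val i ⊓ beq z (x.fam i) ⊓ F z v) ≤
          (F (x.fam i) v ⊓ F (x.fam i) (w i) ⇨ beq v (w i)) :=
        b2.trans ((iInf_le _ v).trans (iInf_le _ (w i)))
      calc u ⊓ (x.val i ⊓ beq z (x.fam i) ⊓ F z v)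
          ≤ (F (x.fam i) v ⊓ F (x.fam i) (w i) ⇨ beq v (w i)) ⊓
            (F (x.fam i) v ⊓ F (x.fam i) (w i)) := le_inf b3 (le_inf a2 a3)
        _ ≤ beq v (w i) := himp_inf_le
    exact le_inf (le_inf a1 a3) a4

end AxRepl

/-- Module I10: AxRepl.lean -/
theorem ax_repl (U : UF 𝔹) : ∀ (n : ℕ) (φ : Fml (n + 2)) (p : Fin n → Mod U) (x : Mod U),
    (∀ z, U.E z x → ∃! w,
      Sat U.E φ (Fin.cons z (Fin.cons w p : Fin (n + 1) → Mod U) : Fin (n + 2) → Mod U)) →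
    ∃ y, ∀ w, U.E w y ↔ ∃ z, U.E z x ∧
      Sat U.E φ (Fin.cons z (Fin.cons w p : Fin (n + 1) → Mod U) : Fin (n + 2) → Mod U) := by
  intro n φ p x hx
  obtain ⟨q, rfl⟩ := AxSep.exists_rep U p
  obtain ⟨x, rfl⟩ := Quotient.exists_rep x
  have hS := fun z w : BSet 𝔹 => AxSep.sat_cons_cons U φ z w q
  obtain ⟨y, hy⟩ := AxRepl.main U
    (fun z w => bval φ (Fin.cons z (Fin.cons w q : Fin (n + 1) → BSet 𝔹) : Fin (n + 2) → BSet 𝔹))
    (fun w => AxRepl.ext_fst φ w q) (fun z => AxRepl.ext_snd φ z q) x (by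
      intro z hz w w' hw hw'
      have h := hx (Quotient.mk U.setoid z) ((E_mk U z x).2 hz)
      exact (mk_eq_iff U w w').1 (h.unique ((hS z w).2 hw) ((hS z w').2 hw')))
  refine ⟨Quotient.mk U.setoid y, fun w => ?_⟩
  obtain ⟨w, rfl⟩ := Quotient.exists_rep w
  refine (E_mk U w y).trans ((hy w).trans ?_)
  constructor
  · rintro ⟨z, hz, hzw⟩
    exact ⟨Quotient.mk U.setoid z, (E_mk U z x).2 hz, (hS z w).2 hzw⟩
  · rintro ⟨z, hz, hzw⟩
    obtain ⟨z, rfl⟩ := Quotient.exists_rep z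
    exact ⟨z, (E_mk U z x).1 hz, (hS z w).1 hzw⟩

end Pool.Agent.BVM
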