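import Pool.Agent.BVM.Quot

/-! # The separation schema in the quotient model -/

set_option autoImplicit false

namespace Pool.Agent.BVM

variable {𝔹 : Type} [CompleteBooleanAlgebra 𝔹]

def sepN (x : BSet 𝔹) (f : BSet 𝔹 → 𝔹) : BSet 𝔹 := ⟨x.idx, x.fam, fun i => x.val i ⊓ f (x.fam i)⟩

theorem bmem_sepN (z x : BSet 𝔹) {f : BSet 𝔹 → 𝔹} (hf : Ext1 f) :
    bmem z (sepN x f) = bmem z x ⊓ f z := by
  have h1 : bmem z (sepN x f) = ⨆ i : x.idx, (x.val i ⊓ f (x.fam i)) ⊓ beq z (x.fam i) := rfl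
  rw [h1, bmem_def z x, iSup_inf_eq]
  apply le_antisymm
  · refine iSup_mono fun i => ?_
    refine le_inf (inf_le_inf_right _ inf_le_left) ?_
    refine le_trans ?_ (hf (x.fam i) z)
    rw [beq_symm (x.fam i) z]
    exact le_inf inf_le_right (inf_le_left.trans inf_le_right)
  · refine iSup_mono fun i => ?_
    refine le_inf (le_inf (inf_le_left.trans inf_le_left) ?_) (inf_le_left.trans inf_le_right)
    refine le_trans ?_ (hf z (x.fam i))
    exact inf_le_inf_right _ inf_le_right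

namespace AxSep

/-- the class of a list of representatives with one new entry -/
theorem mk_cons (U : UF 𝔹) {n : ℕ} (z : BSet 𝔹) (q : Fin n → BSet 𝔹) :
    (fun i => (Quotient.mk U.setoid ((Fin.cons z q : Fin (n + 1) → BSet 𝔹) i) : Mod U)) =
      Fin.cons (Quotient.mk U.setoid z : Mod U) (fun i => (Quotient.mk U.setoid (q i) : Mod U)) := by
  funext i
  refine Fin.cases ?_ (fun k => ?_) i
  · simp only [Fin.cons_zero]
  · simp only [Fin.cons_succ]

/-- every list of elements has representatives -/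
theorem exists_rep (U : UF 𝔹) {n : ℕ} (p : Fin n → Mod U) :
    ∃ q : Fin n → BSet 𝔹, p = fun i => (Quotient.mk U.setoid (q i) : Mod U) := by
  have h : ∀ i, ∃ x : BSet 𝔹, (Quotient.mk U.setoid x : Mod U) = p i := fun i =>
    Quotient.exists_rep (p i)
  choose q hq using h
  exact ⟨q, funext fun i => (hq i).symm⟩

/-- Los for formulas with one new entry -/
theorem sat_cons (U : UF 𝔹) {n : ℕ} (φ : Fml (n + 1)) (z : BSet 𝔹) (q : Fin n → BSet 𝔹) :
    Sat U.E φ (Fin.cons (Quotient.mk U.setoid z : Mod U)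
      (fun i => (Quotient.mk U.setoid (q i) : Mod U)) : Fin (n + 1) → Mod U) ↔
      bval φ (Fin.cons z q : Fin (n + 1) → BSet 𝔹) ∈ U.carrier :=
  (iff_of_eq (congrArg (Sat U.E φ) (mk_cons U z q))).symm.trans (los U φ _)

/-- Los for formulas with two new entries -/
theorem sat_cons_cons (U : UF 𝔹) {n : ℕ} (φ : Fml (n + 2)) (z w : BSet 𝔹) (q : Fin n → BSet 𝔹) :
    Sat U.E φ (Fin.cons (Quotient.mk U.setoid z : Mod U)
      (Fin.cons (Quotient.mk U.setoid w : Mod U)
        (fun i => (Quotient.mk U.setoid (q i) : Mod U)) : Fin (n + 1) → Mod U) :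
          Fin (n + 2) → Mod U) ↔
      bval φ (Fin.cons z (Fin.cons w q : Fin (n + 1) → BSet 𝔹) : Fin (n + 2) → BSet 𝔹) ∈
        U.carrier := by
  have h := sat_cons U φ z (Fin.cons w q : Fin (n + 1) → BSet 𝔹)
  have h2 : (Fin.cons (Quotient.mk U.setoid z : Mod U)
      (fun i => (Quotient.mk U.setoid ((Fin.cons w q : Fin (n + 1) → BSet 𝔹) i) : Mod U)) :
        Fin (n + 2) → Mod U) = Fin.cons (Quotient.mk U.setoid z : Mod U)
      (Fin.cons (Quotient.mk U.setoid w : Mod U)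
        (fun i => (Quotient.mk U.setoid (q i) : Mod U)) : Fin (n + 1) → Mod U) :=
    congrArg (fun t => (Fin.cons (Quotient.mk U.setoid z : Mod U) t : Fin (n + 2) → Mod U))
      (mk_cons U w q)
  exact (iff_of_eq (congrArg (Sat U.E φ) h2)).symm.trans h

end AxSep

theorem ax_sep (U : UF 𝔹) : ∀ (n : ℕ) (φ : Fml (n + 1)) (p : Fin n → Mod U) (x : Mod U),
    ∃ y, ∀ z, U.E z y ↔ U.E z x ∧ Sat U.E φ (Fin.cons z p : Fin (n + 1) → Mod U) := by
  intro n φ p x
  obtain ⟨q, rfl⟩ := AxSep.exists_rep U p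
  obtain ⟨x, rfl⟩ := Quotient.exists_rep x
  refine ⟨Quotient.mk U.setoid (sepN x fun z => bval φ (Fin.cons z q : Fin (n + 1) → BSet 𝔹)), ?_⟩
  intro z
  obtain ⟨z, rfl⟩ := Quotient.exists_rep z
  refine (E_mk U z _).trans ?_
  rw [bmem_sepN z x (bval_ext1 φ q), UF.inf_mem_iff]
  exact and_congr (E_mk U z x).symm (AxSep.sat_cons U φ z q).symm

end Pool.Agent.BVM
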