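import Pool.Agent.BVM.Defs

/-! # Boolean-valued equality and membership: basic properties -/

set_option autoImplicit false

namespace Pool.Agent.BVM

variable {𝔹 : Type} [CompleteBooleanAlgebra 𝔹]

namespace Basic

theorem beq_mk {ι ι' : Type} (A : ι → BSet 𝔹) (B : ι → 𝔹) (A' : ι' → BSet 𝔹) (B' : ι' → 𝔹) :
    beq (BSet.mk ι A B) (BSet.mk ι' A' B') =
      (⨅ i : ι, B i ⇨ ⨆ j : ι', B' j ⊓ beq (A i) (A' j)) ⊓
      (⨅ j : ι', B' j ⇨ ⨆ i : ι, B i ⊓ beq (A i) (A' j)) := by
  rw [beq]

theorem beq_mk_left {ι ι' : Type} (A : ι → BSet 𝔹) (B : ι → 𝔹) (A' : ι' → BSet 𝔹) (B' : ι' → 𝔹)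
    (i : ι) : B i ⊓ beq (BSet.mk ι A B) (BSet.mk ι' A' B') ≤ ⨆ j : ι', B' j ⊓ beq (A i) (A' j) := by
  rw [beq_mk]
  refine (inf_le_inf_left _ (inf_le_left.trans (iInf_le _ i))).trans ?_
  rw [inf_himp]
  exact inf_le_right

theorem beq_mk_right {ι ι' : Type} (A : ι → BSet 𝔹) (B : ι → 𝔹) (A' : ι' → BSet 𝔹) (B' : ι' → 𝔹)
    (j : ι') : B' j ⊓ beq (BSet.mk ι A B) (BSet.mk ι' A' B') ≤ ⨆ i : ι, B i ⊓ beq (A i) (A' j) := by
  rw [beq_mk]
  refine (inf_le_inf_left _ (inf_le_right.trans (iInf_le _ j))).trans ?_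
  rw [inf_himp]
  exact inf_le_right

end Basic

theorem beq_refl (x : BSet 𝔹) : beq x x = ⊤ := by
  induction x with
  | mk ι A B ih =>
    rw [Basic.beq_mk, eq_top_iff, le_inf_iff]
    constructor
    · refine le_iInf fun i => ?_
      rw [le_himp_iff, top_inf_eq]
      refine le_trans ?_ (le_iSup _ i)
      rw [ih i, inf_top_eq]
    · refine le_iInf fun i => ?_
      rw [le_himp_iff, top_inf_eq]
      refine le_trans ?_ (le_iSup _ i)
      rw [ih i, inf_top_eq]

theorem beq_symm (x y : BSet 𝔹) : beq x y = beq y x := by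
  induction x generalizing y with
  | mk ι A B ih =>
    cases y with
    | mk ι' A' B' =>
      rw [Basic.beq_mk, Basic.beq_mk, inf_comm]
      simp only [ih]

theorem beq_trans (x y z : BSet 𝔹) : beq x y ⊓ beq y z ≤ beq x z := by
  induction x generalizing y z with
  | mk ι A B ih =>
    cases y with
    | mk ι' A' B' =>
      cases z with
      | mk ι'' A'' B'' =>
        conv_rhs => rw [Basic.beq_mk]
        refine le_inf (le_iInf fun i => ?_) (le_iInf fun k => ?_)
        · rw [le_himp_iff]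
          calc beq (BSet.mk ι A B) (BSet.mk ι' A' B') ⊓ beq (BSet.mk ι' A' B') (BSet.mk ι'' A'' B'') ⊓ B i
              = (B i ⊓ beq (BSet.mk ι A B) (BSet.mk ι' A' B')) ⊓
                beq (BSet.mk ι' A' B') (BSet.mk ι'' A'' B'') := by
                rw [inf_comm (B i), inf_right_comm]
            _ ≤ (⨆ j : ι', B' j ⊓ beq (A i) (A' j)) ⊓ beq (BSet.mk ι' A' B') (BSet.mk ι'' A'' B'') :=
                inf_le_inf_right _ (Basic.beq_mk_left A B A' B' i)
            _ ≤ ⨆ k : ι'', B'' k ⊓ beq (A i) (A'' k) := by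
                rw [iSup_inf_eq]
                refine iSup_le fun j => ?_
                have h1 : B' j ⊓ beq (A i) (A' j) ⊓ beq (BSet.mk ι' A' B') (BSet.mk ι'' A'' B'') ≤
                    beq (A i) (A' j) ⊓ ⨆ k : ι'', B'' k ⊓ beq (A' j) (A'' k) := by
                  refine le_inf (inf_le_left.trans inf_le_right) ?_
                  refine le_trans ?_ (Basic.beq_mk_left A' B' A'' B'' j)
                  exact inf_le_inf_right _ inf_le_left
                refine h1.trans ?_
                rw [inf_iSup_eq]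
                refine iSup_le fun k => ?_
                refine le_trans ?_ (le_iSup _ k)
                refine le_inf (inf_le_right.trans inf_le_left) ?_
                refine le_trans ?_ (ih i (A' j) (A'' k))
                exact inf_le_inf_left _ inf_le_right
        · rw [le_himp_iff]
          calc beq (BSet.mk ι A B) (BSet.mk ι' A' B') ⊓ beq (BSet.mk ι' A' B') (BSet.mk ι'' A'' B'') ⊓ B'' k
              = (B'' k ⊓ beq (BSet.mk ι' A' B') (BSet.mk ι'' A'' B'')) ⊓
                beq (BSet.mk ι A B) (BSet.mk ι' A' B') := by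
                rw [inf_assoc, inf_comm (beq (BSet.mk ι A B) (BSet.mk ι' A' B')), inf_comm (B'' k)]
            _ ≤ (⨆ j : ι', B' j ⊓ beq (A' j) (A'' k)) ⊓ beq (BSet.mk ι A B) (BSet.mk ι' A' B') :=
                inf_le_inf_right _ (Basic.beq_mk_right A' B' A'' B'' k)
            _ ≤ ⨆ i : ι, B i ⊓ beq (A i) (A'' k) := by
                rw [iSup_inf_eq]
                refine iSup_le fun j => ?_
                have h1 : B' j ⊓ beq (A' j) (A'' k) ⊓ beq (BSet.mk ι A B) (BSet.mk ι' A' B') ≤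
                    beq (A' j) (A'' k) ⊓ ⨆ i : ι, B i ⊓ beq (A i) (A' j) := by
                  refine le_inf (inf_le_left.trans inf_le_right) ?_
                  refine le_trans ?_ (Basic.beq_mk_right A B A' B' j)
                  exact inf_le_inf_right _ inf_le_left
                refine h1.trans ?_
                rw [inf_iSup_eq]
                refine iSup_le fun i => ?_
                refine le_trans ?_ (le_iSup _ i)
                refine le_inf (inf_le_right.trans inf_le_left) ?_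
                refine le_trans ?_ (ih i (A' j) (A'' k))
                exact le_inf (inf_le_right.trans inf_le_right) inf_le_left

theorem bmem_def (x y : BSet 𝔹) : bmem x y = ⨆ j : y.idx, y.val j ⊓ beq x (y.fam j) := by
  cases y with
  | mk ι A B => rfl

theorem beq_def (x y : BSet 𝔹) : beq x y =
    (⨅ i : x.idx, x.val i ⇨ bmem (x.fam i) y) ⊓ (⨅ j : y.idx, y.val j ⇨ bmem (y.fam j) x) := by
  cases x with
  | mk ι A B =>
    cases y with
    | mk ι' A' B' =>
      rw [Basic.beq_mk]
      have h : ∀ j : ι', (⨆ i : ι, B i ⊓ beq (A i) (A' j)) = ⨆ i : ι, B i ⊓ beq (A' j) (A i) := by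
        intro j
        simp only [beq_symm (A' j)]
      simp only [h]
      rfl

theorem val_le_bmem (x : BSet 𝔹) (i : x.idx) : x.val i ≤ bmem (x.fam i) x := by
  rw [bmem_def]
  refine le_trans ?_ (le_iSup _ i)
  rw [beq_refl, inf_top_eq]

theorem bmem_congr_left (x y z : BSet 𝔹) : beq x y ⊓ bmem x z ≤ bmem y z := by
  rw [bmem_def x z, bmem_def y z, inf_iSup_eq]
  refine iSup_mono fun j => ?_
  refine le_inf (inf_le_right.trans inf_le_left) ?_
  refine le_trans ?_ (beq_trans y x (z.fam j))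
  rw [beq_symm x y]
  exact inf_le_inf_left _ inf_le_right

theorem bmem_congr_right (x y z : BSet 𝔹) : beq y z ⊓ bmem x y ≤ bmem x z := by
  rw [bmem_def x y, inf_iSup_eq]
  refine iSup_le fun j => ?_
  have h1 : beq y z ⊓ (y.val j ⊓ beq x (y.fam j)) ≤ beq (y.fam j) x ⊓ bmem (y.fam j) z := by
    refine le_inf ?_ ?_
    · rw [beq_symm (y.fam j) x]
      exact inf_le_right.trans inf_le_right
    · have h2 : beq y z ≤ y.val j ⇨ bmem (y.fam j) z := by
        rw [beq_def]
        exact inf_le_left.trans (iInf_le _ j)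
      rw [le_himp_iff] at h2
      refine le_trans ?_ h2
      exact inf_le_inf_left _ inf_le_left
  exact h1.trans (bmem_congr_left _ _ _)

theorem beq_eq_iInf (x y : BSet 𝔹) : beq x y =
    ⨅ z : BSet 𝔹, (bmem z x ⇨ bmem z y) ⊓ (bmem z y ⇨ bmem z x) := by
  apply le_antisymm
  · refine le_iInf fun z => le_inf ?_ ?_
    · rw [le_himp_iff]
      exact bmem_congr_right _ _ _
    · rw [le_himp_iff, beq_symm x y]
      exact bmem_congr_right _ _ _
  · rw [beq_def]
    refine le_inf (le_iInf fun i => ?_) (le_iInf fun j => ?_)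
    · refine (iInf_le _ (x.fam i)).trans (inf_le_left.trans ?_)
      exact himp_le_himp_right (val_le_bmem x i)
    · refine (iInf_le _ (y.fam j)).trans (inf_le_right.trans ?_)
      exact himp_le_himp_right (val_le_bmem y j)

/-- bounded quantifiers -/
theorem ball_eq {f : BSet 𝔹 → 𝔹} (hf : Ext1 f) (x : BSet 𝔹) :
    (⨅ z : BSet 𝔹, bmem z x ⇨ f z) = ⨅ i : x.idx, x.val i ⇨ f (x.fam i) := by
  apply le_antisymm
  · refine le_iInf fun i => (iInf_le _ (x.fam i)).trans ?_
    exact himp_le_himp_right (val_le_bmem x i)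
  · refine le_iInf fun z => ?_
    rw [le_himp_iff, bmem_def, inf_iSup_eq]
    refine iSup_le fun i => ?_
    refine le_trans ?_ (hf (x.fam i) z)
    refine le_inf ?_ ?_
    · rw [beq_symm]
      exact inf_le_right.trans inf_le_right
    · have h1 : (⨅ i : x.idx, x.val i ⇨ f (x.fam i)) ≤ x.val i ⇨ f (x.fam i) := iInf_le _ i
      rw [le_himp_iff] at h1
      exact le_trans (inf_le_inf_left _ inf_le_left) h1

theorem bex_eq {f : BSet 𝔹 → 𝔹} (hf : Ext1 f) (x : BSet 𝔹) :
    (⨆ z : BSet 𝔹, bmem z x ⊓ f z) = ⨆ i : x.idx, x.val i ⊓ f (x.fam i) := by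
  apply le_antisymm
  · refine iSup_le fun z => ?_
    rw [bmem_def, iSup_inf_eq]
    refine iSup_mono fun i => ?_
    refine le_inf (inf_le_left.trans inf_le_left) ?_
    refine le_trans ?_ (hf z (x.fam i))
    exact inf_le_inf_right _ inf_le_right
  · refine iSup_le fun i => ?_
    refine le_trans ?_ (le_iSup _ (x.fam i))
    exact inf_le_inf_right _ (val_le_bmem x i)

/-- a density argument -/
theorem le_of_dense {b c : 𝔹} (h : ∀ p, p ≠ ⊥ → p ≤ b → ∃ q, q ≠ ⊥ ∧ q ≤ p ∧ q ≤ c) : b ≤ c := by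
  by_contra hbc
  have h1 : b ⊓ cᶜ ≠ ⊥ := by
    intro h2
    apply hbc
    rwa [← disjoint_iff, disjoint_compl_right_iff] at h2
  obtain ⟨q, hq, hqp, hqc⟩ := h _ h1 inf_le_left
  apply hq
  rw [← le_bot_iff]
  calc q ≤ c ⊓ cᶜ := le_inf hqc (hqp.trans inf_le_right)
    _ = ⊥ := inf_compl_self c

theorem exists_inf_ne_bot {ι : Sort*} {p : 𝔹} {f : ι → 𝔹} (hp : p ≠ ⊥) (h : p ≤ ⨆ i, f i) :
    ∃ i, p ⊓ f i ≠ ⊥ := by
  by_contra hcon
  push Not at hcon
  apply hp
  have h1 : p = p ⊓ ⨆ i, f i := (inf_eq_left.mpr h).symm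
  rw [h1, inf_iSup_eq]
  simp [hcon]

end Pool.Agent.BVM
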