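import Mathlib

/-!
# Boolean-valued models of set theory (definitions)

`BSet 𝔹` is the class of `𝔹`-names, `beq` and `bmem` are the Boolean values of equality and membership.
`Fml n` are the first-order formulas of the language of set theory with `n` free variables, `Sat` is the
satisfaction relation in a structure `(M, E)`, `bval` the Boolean value.  `IsModelZFC E` says that the
structure `(M, E)` is a model of ZFC (the two schemas are quantified over all formulas and parameters).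
-/

set_option autoImplicit false

namespace Pool.Agent.BVM

/-- First-order formulas of the language of set theory with `n` free variables (de Bruijn indices, the
variable `0` is the most recently quantified one). -/
inductive Fml : ℕ → Type
  | bot {n : ℕ} : Fml n
  | mem {n : ℕ} (i j : Fin n) : Fml n
  | eq {n : ℕ} (i j : Fin n) : Fml n
  | imp {n : ℕ} (φ ψ : Fml n) : Fml n
  | all {n : ℕ} (φ : Fml (n + 1)) : Fml n

/-- Satisfaction in the structure `(M, E)`. -/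
def Sat {M : Type*} (E : M → M → Prop) : {n : ℕ} → Fml n → (Fin n → M) → Prop
  | _, .bot, _ => False
  | _, .mem i j, v => E (v i) (v j)
  | _, .eq i j, v => v i = v j
  | _, .imp φ ψ, v => Sat E φ v → Sat E ψ v
  | _, .all φ, v => ∀ x : M, Sat E φ (Fin.cons x v : Fin (_ + 1) → M)

/-- `(M, E)` is a model of ZFC. -/
structure IsModelZFC {M : Type*} (E : M → M → Prop) : Prop where
  ext : ∀ x y, (∀ z, E z x ↔ E z y) → x = y
  found : ∀ x, (∃ y, E y x) → ∃ y, E y x ∧ ∀ z, E z x → ¬ E z y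
  pair : ∀ x y, ∃ z, ∀ w, E w z ↔ w = x ∨ w = y
  union : ∀ x, ∃ y, ∀ z, E z y ↔ ∃ w, E w x ∧ E z w
  power : ∀ x, ∃ y, ∀ z, E z y ↔ ∀ w, E w z → E w x
  infinity : ∃ w, (∃ e, E e w ∧ ∀ z, ¬ E z e) ∧ ∀ x, E x w → ∃ y, E y w ∧ ∀ z, E z y ↔ E z x ∨ z = x
  sep : ∀ (n : ℕ) (φ : Fml (n + 1)) (p : Fin n → M) (x : M), ∃ y, ∀ z, E z y ↔
    E z x ∧ Sat E φ (Fin.cons z p : Fin (n + 1) → M)
  repl : ∀ (n : ℕ) (φ : Fml (n + 2)) (p : Fin n → M) (x : M),
    (∀ z, E z x → ∃! w, Sat E φ (Fin.cons z (Fin.cons w p : Fin (n + 1) → M) : Fin (n + 2) → M)) →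
    ∃ y, ∀ w, E w y ↔
      ∃ z, E z x ∧ Sat E φ (Fin.cons z (Fin.cons w p : Fin (n + 1) → M) : Fin (n + 2) → M)
  choice : ∀ x, (∀ y, E y x → ∃ z, E z y) →
    (∀ y z, E y x → E z x → y ≠ z → ¬ ∃ w, E w y ∧ E w z) →
    ∃ c, ∀ y, E y x → ∃! z, E z y ∧ E z c

/-- The class of `𝔹`-names. -/
inductive BSet (𝔹 : Type) : Type 1
  | mk (ι : Type) (A : ι → BSet 𝔹) (B : ι → 𝔹) : BSet 𝔹

variable {𝔹 : Type}

/-- index type of a name -/
def BSet.idx : BSet 𝔹 → Type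
  | ⟨ι, _, _⟩ => ι

/-- the elements of a name -/
def BSet.fam : (x : BSet 𝔹) → x.idx → BSet 𝔹
  | ⟨_, A, _⟩ => A

/-- the Boolean weights of a name -/
def BSet.val : (x : BSet 𝔹) → x.idx → 𝔹
  | ⟨_, _, B⟩ => B

variable [CompleteBooleanAlgebra 𝔹]

/-- Boolean value of equality. -/
def beq : BSet 𝔹 → BSet 𝔹 → 𝔹
  | ⟨ι, A, B⟩, ⟨ι', A', B'⟩ =>
    (⨅ i : ι, B i ⇨ ⨆ j : ι', B' j ⊓ beq (A i) (A' j)) ⊓
    (⨅ j : ι', B' j ⇨ ⨆ i : ι, B i ⊓ beq (A i) (A' j))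

/-- Boolean value of membership. -/
def bmem (x : BSet 𝔹) : BSet 𝔹 → 𝔹
  | ⟨ι, A, B⟩ => ⨆ i : ι, B i ⊓ beq x (A i)

/-- Boolean value of a formula. -/
def bval : {n : ℕ} → Fml n → (Fin n → BSet 𝔹) → 𝔹
  | _, .bot, _ => ⊥
  | _, .mem i j, v => bmem (v i) (v j)
  | _, .eq i j, v => beq (v i) (v j)
  | _, .imp φ ψ, v => bval φ v ⇨ bval ψ v
  | _, .all φ, v => ⨅ x : BSet 𝔹, bval φ (Fin.cons x v : Fin (_ + 1) → BSet 𝔹)

/-- Extensional Boolean-valued predicates. -/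
def Ext1 (f : BSet 𝔹 → 𝔹) : Prop := ∀ x y, beq x y ⊓ f x ≤ f y

variable (𝔹) in
/-- An ultrafilter on a Boolean algebra. -/
structure UF where
  carrier : Set 𝔹
  top_mem : ⊤ ∈ carrier
  bot_notMem : ⊥ ∉ carrier
  inf_mem : ∀ {a b}, a ∈ carrier → b ∈ carrier → a ⊓ b ∈ carrier
  up : ∀ {a b}, a ∈ carrier → a ≤ b → b ∈ carrier
  prime : ∀ a, a ∈ carrier ∨ aᶜ ∈ carrier

end Pool.Agent.BVM
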