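import Pool.Agent.BVM.Basic

/-! # Boolean values of formulas respect equality -/

set_option autoImplicit false

namespace Pool.Agent.BVM

variable {𝔹 : Type} [CompleteBooleanAlgebra 𝔹]

/-- Boolean values of formulas respect equality. -/
theorem bval_ext {n : ℕ} (φ : Fml n) (v w : Fin n → BSet 𝔹) :
    (⨅ i, beq (v i) (w i)) ⊓ bval φ v ≤ bval φ w := by
  induction φ with
  | bot => exact inf_le_right
  | mem i j =>
    simp only [bval]
    have h1 : (⨅ i, beq (v i) (w i)) ⊓ bmem (v i) (v j) ≤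
        beq (v j) (w j) ⊓ bmem (w i) (v j) := by
      refine le_inf (inf_le_left.trans (iInf_le _ j)) ?_
      refine le_trans ?_ (bmem_congr_left (v i) (w i) (v j))
      exact inf_le_inf_right _ (iInf_le _ i)
    exact h1.trans (bmem_congr_right _ _ _)
  | eq i j =>
    simp only [bval]
    have h1 : (⨅ i, beq (v i) (w i)) ⊓ beq (v i) (v j) ≤
        beq (w i) (v j) ⊓ beq (v j) (w j) := by
      refine le_inf ?_ (inf_le_left.trans (iInf_le _ j))
      refine le_trans ?_ (beq_trans (w i) (v i) (v j))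
      rw [beq_symm (w i) (v i)]
      exact inf_le_inf_right _ (iInf_le _ i)
    exact h1.trans (beq_trans _ _ _)
  | imp φ ψ ih1 ih2 =>
    simp only [bval]
    rw [le_himp_iff]
    have hs : (⨅ i, beq (w i) (v i)) = ⨅ i, beq (v i) (w i) := by
      simp only [beq_symm]
    have h1 : (⨅ i, beq (v i) (w i)) ⊓ (bval φ v ⇨ bval ψ v) ⊓ bval φ w ≤
        (⨅ i, beq (v i) (w i)) ⊓ bval ψ v := by
      refine le_inf (inf_le_left.trans inf_le_left) ?_
      have h2 : (⨅ i, beq (v i) (w i)) ⊓ bval φ w ≤ bval φ v := by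
        rw [← hs]
        exact ih1 w v
      calc (⨅ i, beq (v i) (w i)) ⊓ (bval φ v ⇨ bval ψ v) ⊓ bval φ w
          ≤ (bval φ v ⇨ bval ψ v) ⊓ bval φ v := by
            refine le_inf (inf_le_left.trans inf_le_right) ?_
            exact le_trans (inf_le_inf_right _ inf_le_left) h2
        _ ≤ bval ψ v := himp_inf_le
    exact h1.trans (ih2 v w)
  | all φ ih =>
    simp only [bval]
    refine le_iInf fun x => ?_
    refine le_trans ?_ (ih (Fin.cons x v) (Fin.cons x w))
    refine le_inf ?_ (inf_le_right.trans (iInf_le _ x))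
    refine le_iInf fun i => ?_
    refine Fin.cases ?_ (fun k => ?_) i
    · simp only [Fin.cons_zero, beq_refl]
      exact le_top
    · simp only [Fin.cons_succ]
      exact inf_le_left.trans (iInf_le _ k)

theorem bval_ext1 {n : ℕ} (φ : Fml (n + 1)) (p : Fin n → BSet 𝔹) :
    Ext1 (fun x => bval φ (Fin.cons x p : Fin (n + 1) → BSet 𝔹)) := by
  intro x y
  refine le_trans ?_ (bval_ext φ (Fin.cons x p) (Fin.cons y p))
  refine inf_le_inf_right _ (le_iInf fun i => ?_)
  refine Fin.cases ?_ (fun k => ?_) i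
  · simp only [Fin.cons_zero]
    exact le_rfl
  · simp only [Fin.cons_succ, beq_refl]
    exact le_top

theorem ext1_beq_left (y : BSet 𝔹) : Ext1 (fun x => beq x y) := by
  intro x z
  show beq x z ⊓ beq x y ≤ beq z y
  rw [beq_symm x z]
  exact beq_trans _ _ _

theorem ext1_beq_right (y : BSet 𝔹) : Ext1 (fun x => beq y x) := by
  intro x z
  show beq x z ⊓ beq y x ≤ beq y z
  rw [inf_comm]
  exact beq_trans _ _ _

theorem ext1_bmem_left (y : BSet 𝔹) : Ext1 (fun x => bmem x y) :=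
  fun x z => bmem_congr_left x z y

theorem ext1_bmem_right (y : BSet 𝔹) : Ext1 (fun x => bmem y x) :=
  fun x z => bmem_congr_right y x z

theorem Ext1.inf {f g : BSet 𝔹 → 𝔹} (hf : Ext1 f) (hg : Ext1 g) : Ext1 (fun x => f x ⊓ g x) := by
  intro x y
  refine le_inf (le_trans ?_ (hf x y)) (le_trans ?_ (hg x y))
  · exact inf_le_inf_left _ inf_le_left
  · exact inf_le_inf_left _ inf_le_right

theorem Ext1.sup {f g : BSet 𝔹 → 𝔹} (hf : Ext1 f) (hg : Ext1 g) : Ext1 (fun x => f x ⊔ g x) := by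
  intro x y
  show beq x y ⊓ (f x ⊔ g x) ≤ f y ⊔ g y
  rw [inf_sup_left]
  exact sup_le_sup (hf x y) (hg x y)

theorem Ext1.himp {f g : BSet 𝔹 → 𝔹} (hf : Ext1 f) (hg : Ext1 g) : Ext1 (fun x => f x ⇨ g x) := by
  intro x y
  show beq x y ⊓ (f x ⇨ g x) ≤ f y ⇨ g y
  rw [le_himp_iff]
  refine le_trans ?_ (hg x y)
  refine le_inf (inf_le_left.trans inf_le_left) ?_
  calc beq x y ⊓ (f x ⇨ g x) ⊓ f y ≤ (f x ⇨ g x) ⊓ f x := by
        refine le_inf (inf_le_left.trans inf_le_right) ?_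
        refine le_trans ?_ (hf y x)
        rw [beq_symm y x]
        exact inf_le_inf_right _ inf_le_left
    _ ≤ g x := himp_inf_le

theorem Ext1.const (b : 𝔹) : Ext1 (fun _ : BSet 𝔹 => b) := fun _ _ => inf_le_right

theorem Ext1.compl {f : BSet 𝔹 → 𝔹} (hf : Ext1 f) : Ext1 (fun x => (f x)ᶜ) := by
  have h := Ext1.himp hf (Ext1.const (⊥ : 𝔹))
  simpa only [himp_bot] using h

theorem Ext1.iInf {ι : Sort*} {f : ι → BSet 𝔹 → 𝔹} (hf : ∀ i, Ext1 (f i)) :
    Ext1 (fun x => ⨅ i, f i x) := by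
  intro x y
  refine le_iInf fun i => le_trans ?_ (hf i x y)
  exact inf_le_inf_left _ (iInf_le _ i)

theorem Ext1.iSup {ι : Sort*} {f : ι → BSet 𝔹 → 𝔹} (hf : ∀ i, Ext1 (f i)) :
    Ext1 (fun x => ⨆ i, f i x) := by
  intro x y
  show beq x y ⊓ (⨆ i, f i x) ≤ ⨆ i, f i y
  rw [inf_iSup_eq]
  exact iSup_mono fun i => hf i x y

end Pool.Agent.BVM
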