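import Pool.Agent.BVM.AxExt
import Pool.Agent.BVM.AxPair
import Pool.Agent.BVM.AxPower
import Pool.Agent.BVM.AxSep
import Pool.Agent.BVM.AxRepl
import Pool.Agent.BVM.AxInf
import Pool.Agent.BVM.AxChoice

/-!
# The quotient of the Boolean-valued universe by an ultrafilter is a model of ZFC
-/

set_option autoImplicit false

namespace Pool.Agent.BVM

variable {𝔹 : Type} [CompleteBooleanAlgebra 𝔹]

/-- For every complete Boolean algebra and every ultrafilter on it, the quotient of the Boolean-valued
universe is a first-order model of ZFC. -/
theorem isModelZFC_E (U : UF 𝔹) : IsModelZFC U.E where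
  ext := ax_ext U
  found := ax_found U
  pair := ax_pair U
  union := ax_union U
  power := ax_power U
  infinity := ax_infinity U
  sep := ax_sep U
  repl := ax_repl U
  choice := ax_choice U

end Pool.Agent.BVM
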