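import Pool.Agent.BVM.Basic

/-! # The mixing lemma and the maximum principle -/

set_option autoImplicit false

namespace Pool.Agent.BVM

variable {𝔹 : Type} [CompleteBooleanAlgebra 𝔹]

namespace Mix

/-- the mixture -/
def mixN {κ : Type} (c : κ → 𝔹) (x : κ → BSet 𝔹) : BSet 𝔹 :=
  ⟨(Σ k : κ, (x k).idx), fun p => (x p.1).fam p.2, fun p => c p.1 ⊓ (x p.1).val p.2⟩

theorem mixN_spec {κ : Type} (c : κ → 𝔹) (hc : ∀ i j, i ≠ j → c i ⊓ c j = ⊥) (x : κ → BSet 𝔹)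
    (k : κ) : c k ≤ beq (mixN c x) (x k) := by
  rw [beq_def]
  refine le_inf ?_ ?_
  · refine le_iInf fun p => ?_
    rw [le_himp_iff]
    show c k ⊓ (c p.1 ⊓ (x p.1).val p.2) ≤ bmem ((x p.1).fam p.2) (x k)
    by_cases h : k = p.1
    · subst h
      exact (inf_le_right.trans inf_le_right).trans (val_le_bmem _ _)
    · rw [← inf_assoc, hc k p.1 h, bot_inf_eq]
      exact bot_le
  · refine le_iInf fun j => ?_
    rw [le_himp_iff]
    exact val_le_bmem (mixN c x) (⟨k, j⟩ : Σ k : κ, (x k).idx)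

end Mix

/-- mixing lemma -/
theorem mix {κ : Type} (c : κ → 𝔹) (hc : ∀ i j, i ≠ j → c i ⊓ c j = ⊥) (x : κ → BSet 𝔹) :
    ∃ y : BSet 𝔹, ∀ k, c k ≤ beq y (x k) :=
  ⟨Mix.mixN c x, Mix.mixN_spec c hc x⟩

namespace Mix

/-- disjointification along a well-order -/
theorem exists_disjoint {κ : Type} (b : κ → 𝔹) : ∃ c : κ → 𝔹, (∀ k, c k ≤ b k) ∧
    (∀ i j, i ≠ j → c i ⊓ c j = ⊥) ∧ (⨆ k, c k) = ⨆ k, b k := by
  classical
  let _ : LinearOrder κ := linearOrderOfSTO (WellOrderingRel (α := κ))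
  have _ : IsWellOrder κ (· < ·) := WellOrderingRel.isWellOrder (α := κ)
  refine ⟨fun k => b k ⊓ (⨆ j : κ, ⨆ _ : j < k, b j)ᶜ, fun k => inf_le_left, ?_, ?_⟩
  · have key : ∀ i j : κ, i < j → (b i ⊓ (⨆ l : κ, ⨆ _ : l < i, b l)ᶜ) ⊓
        (b j ⊓ (⨆ l : κ, ⨆ _ : l < j, b l)ᶜ) = ⊥ := by
      intro i j hij
      rw [← le_bot_iff]
      calc (b i ⊓ (⨆ l : κ, ⨆ _ : l < i, b l)ᶜ) ⊓ (b j ⊓ (⨆ l : κ, ⨆ _ : l < j, b l)ᶜ)
          ≤ (⨆ l : κ, ⨆ _ : l < j, b l) ⊓ (⨆ l : κ, ⨆ _ : l < j, b l)ᶜ := by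
            refine le_inf ?_ (inf_le_right.trans inf_le_right)
            refine (inf_le_left.trans inf_le_left).trans ?_
            exact le_iSup₂ (f := fun (l : κ) (_ : l < j) => b l) i hij
        _ = ⊥ := inf_compl_self _
        _ ≤ ⊥ := le_rfl
    intro i j hij
    rcases lt_or_gt_of_ne hij with h | h
    · exact key i j h
    · rw [inf_comm]
      exact key j i h
  · apply le_antisymm
    · exact iSup_mono fun k => inf_le_left
    · refine iSup_le fun k => ?_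
      induction k using (IsWellFounded.wf : WellFounded ((· < ·) : κ → κ → Prop)).induction with
      | _ k ih =>
        have h1 : b k ≤ (b k ⊓ (⨆ j : κ, ⨆ _ : j < k, b j)ᶜ) ⊔ (⨆ j : κ, ⨆ _ : j < k, b j) := by
          rw [sup_comm, sup_inf_left, sup_compl_eq_top, inf_top_eq]
          exact le_sup_right
        refine h1.trans (sup_le (le_iSup (fun k => b k ⊓ (⨆ j : κ, ⨆ _ : j < k, b j)ᶜ) k) ?_)
        exact iSup₂_le fun j hj => ih j hj

end Mix

/-- maximum principle -/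
theorem full {f : BSet 𝔹 → 𝔹} (hf : Ext1 f) : ∃ x, f x = ⨆ y, f y := by
  classical
  -- index type: the set of attained values
  let κ : Type := {b : 𝔹 // ∃ y, f y = b}
  have hx : ∀ k : κ, ∃ y, f y = k.1 := fun k => k.2
  choose x hx using hx
  obtain ⟨c, hcb, hcd, hcs⟩ := Mix.exists_disjoint (κ := κ) (fun k => k.1)
  obtain ⟨y, hy⟩ := mix c hcd x
  refine ⟨y, le_antisymm (le_iSup f y) ?_⟩
  have h1 : (⨆ y, f y) ≤ ⨆ k : κ, k.1 := by
    refine iSup_le fun z => ?_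
    exact le_iSup (fun k : κ => k.1) ⟨f z, z, rfl⟩
  refine h1.trans ?_
  rw [← hcs]
  refine iSup_le fun k => ?_
  calc c k ≤ beq (x k) y ⊓ f (x k) := by
        rw [beq_symm]
        refine le_inf (hy k) ?_
        rw [hx k]
        exact hcb k
    _ ≤ f y := hf _ _

/-- maximum principle for bounded weights: a mixed witness -/
theorem full_le {f : BSet 𝔹 → 𝔹} (hf : Ext1 f) {b : 𝔹} (h : b ≤ ⨆ y, f y) : ∃ x, b ≤ f x := by
  obtain ⟨x, hx⟩ := full hf
  exact ⟨x, h.trans hx.ge⟩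

end Pool.Agent.BVM
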