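import Pool.Agent.BVM.Defs

/-!
# Ultrafilters on Boolean algebras

Existence (from the prime ideal theorem of Mathlib) and the behaviour of the Boolean operations.
-/

set_option autoImplicit false

namespace Pool.Agent.BVM

variable {𝔹 : Type} [CompleteBooleanAlgebra 𝔹]

theorem exists_UF [Nontrivial 𝔹] : Nonempty (UF 𝔹) := by
  have hdisj : Disjoint ((Order.PFilter.principal (⊤ : 𝔹) : Order.PFilter 𝔹) : Set 𝔹)
      ((Order.Ideal.principal (⊥ : 𝔹) : Order.Ideal 𝔹) : Set 𝔹) := by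
    rw [Set.disjoint_left]
    intro x hx hx'
    have h1 : (⊤ : 𝔹) ≤ x := Order.PFilter.mem_principal.1 hx
    have h2 : x ≤ (⊥ : 𝔹) := Order.Ideal.mem_principal.1 hx'
    exact (bot_ne_top (α := 𝔹)) (le_antisymm bot_le (h1.trans h2))
  obtain ⟨J, hJ, -, hdJ⟩ := DistribLattice.prime_ideal_of_disjoint_filter_ideal hdisj
  have htop : (⊤ : 𝔹) ∉ J := fun h =>
    Set.disjoint_left.1 hdJ (Order.PFilter.mem_principal.2 le_rfl) h
  refine ⟨⟨{a | a ∉ J}, htop, fun h => h (Order.Ideal.bot_mem J), ?_, ?_, ?_⟩⟩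
  · intro a b ha hb hab
    rcases hJ.mem_or_mem hab with h | h
    · exact ha h
    · exact hb h
  · intro a b ha hab hb
    exact ha (J.lower hab hb)
  · intro a
    by_contra hcon
    push Not at hcon
    obtain ⟨h1, h2⟩ := hcon
    have h1' : a ∈ J := by simpa using h1
    have h2' : aᶜ ∈ J := by simpa using h2
    have h3 : a ⊔ aᶜ ∈ J := Order.Ideal.sup_mem h1' h2'
    rw [sup_compl_eq_top] at h3
    exact htop h3

theorem UF.compl_mem_iff (U : UF 𝔹) {a : 𝔹} : aᶜ ∈ U.carrier ↔ a ∉ U.carrier := by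
  constructor
  · intro h h'
    have h3 := U.inf_mem h' h
    rw [inf_compl_eq_bot] at h3
    exact U.bot_notMem h3
  · intro h
    exact (U.prime a).resolve_left h

theorem UF.inf_mem_iff (U : UF 𝔹) {a b : 𝔹} :
    a ⊓ b ∈ U.carrier ↔ a ∈ U.carrier ∧ b ∈ U.carrier :=
  ⟨fun h => ⟨U.up h inf_le_left, U.up h inf_le_right⟩, fun h => U.inf_mem h.1 h.2⟩

theorem UF.sup_mem_iff (U : UF 𝔹) {a b : 𝔹} :
    a ⊔ b ∈ U.carrier ↔ a ∈ U.carrier ∨ b ∈ U.carrier := by
  constructor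
  · intro h
    by_contra hcon
    rw [not_or] at hcon
    have h1 := U.compl_mem_iff.2 hcon.1
    have h2 := U.compl_mem_iff.2 hcon.2
    have h3 := U.inf_mem h1 h2
    rw [← compl_sup] at h3
    exact U.compl_mem_iff.1 h3 h
  · rintro (h | h)
    · exact U.up h le_sup_left
    · exact U.up h le_sup_right

theorem UF.himp_mem_iff (U : UF 𝔹) {a b : 𝔹} :
    a ⇨ b ∈ U.carrier ↔ (a ∈ U.carrier → b ∈ U.carrier) := by
  rw [himp_eq, U.sup_mem_iff, U.compl_mem_iff]
  tauto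

end Pool.Agent.BVM
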