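import Pool.Agent.BVM.Basic
import Pool.Agent.BVM.Extens
import Pool.Agent.BVM.Mix
import Pool.Agent.BVM.Ultra

/-!
# The quotient of the Boolean-valued universe by an ultrafilter
-/

set_option autoImplicit false

namespace Pool.Agent.BVM

variable {𝔹 : Type} [CompleteBooleanAlgebra 𝔹]

/-- equality modulo an ultrafilter -/
def UF.setoid (U : UF 𝔹) : Setoid (BSet 𝔹) where
  r x y := beq x y ∈ U.carrier
  iseqv := {
    refl := fun x => by rw [beq_refl]; exact U.top_mem
    symm := fun {x y} h => by rw [beq_symm]; exact h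
    trans := fun {x y z} h1 h2 => U.up (U.inf_mem h1 h2) (beq_trans x y z) }

/-- The universe of the quotient model. -/
def Mod (U : UF 𝔹) : Type 1 := Quotient U.setoid

/-- The membership relation of the quotient model. -/
def UF.E (U : UF 𝔹) : Mod U → Mod U → Prop :=
  Quotient.lift₂ (fun x y => bmem x y ∈ U.carrier) (by
    intro a b a' b' h1 h2
    have h1' : beq a a' ∈ U.carrier := h1
    have h2' : beq b b' ∈ U.carrier := h2
    apply propext
    constructor
    · intro h
      have := U.up (U.inf_mem h1' h) (bmem_congr_left a a' b)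
      exact U.up (U.inf_mem h2' this) (bmem_congr_right a' b b')
    · intro h
      rw [beq_symm] at h1' h2'
      have := U.up (U.inf_mem h1' h) (bmem_congr_left a' a b')
      exact U.up (U.inf_mem h2' this) (bmem_congr_right a b' b))

theorem E_mk (U : UF 𝔹) (x y : BSet 𝔹) :
    U.E (Quotient.mk U.setoid x) (Quotient.mk U.setoid y) ↔ bmem x y ∈ U.carrier := Iff.rfl

theorem mk_eq_iff (U : UF 𝔹) (x y : BSet 𝔹) :
    Quotient.mk U.setoid x = Quotient.mk U.setoid y ↔ beq x y ∈ U.carrier :=
  ⟨fun h => Quotient.exact h, fun h => Quotient.sound h⟩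

/-- the same with the equality of `Mod U` (useful for `rw`) -/
theorem mk_eq_iff' (U : UF 𝔹) (x y : BSet 𝔹) :
    @Eq (Mod U) (Quotient.mk U.setoid x) (Quotient.mk U.setoid y) ↔ beq x y ∈ U.carrier :=
  mk_eq_iff U x y

/-- Los, semantic form -/
theorem los_all (U : UF 𝔹) {f : BSet 𝔹 → 𝔹} (hf : Ext1 f) :
    (⨅ x, f x) ∈ U.carrier ↔ ∀ x, f x ∈ U.carrier := by
  constructor
  · intro h x
    exact U.up h (iInf_le _ x)
  · intro h
    obtain ⟨x, hx⟩ := full (f := fun x => (f x)ᶜ) hf.compl
    have h1 : (⨅ x, f x) = f x := by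
      have h2 : (⨅ x, f x)ᶜ = (f x)ᶜ := by
        rw [compl_iInf]
        exact hx.symm
      exact compl_injective h2
    rw [h1]
    exact h x

theorem los_ex (U : UF 𝔹) {f : BSet 𝔹 → 𝔹} (hf : Ext1 f) :
    (⨆ x, f x) ∈ U.carrier ↔ ∃ x, f x ∈ U.carrier := by
  constructor
  · intro h
    obtain ⟨x, hx⟩ := full hf
    exact ⟨x, by rw [hx]; exact h⟩
  · rintro ⟨x, hx⟩
    exact U.up hx (le_iSup f x)

/-- Los for formulas -/
theorem los (U : UF 𝔹) {n : ℕ} (φ : Fml n) (v : Fin n → BSet 𝔹) :
    Sat U.E φ (fun i => (Quotient.mk U.setoid (v i) : Mod U)) ↔ bval φ v ∈ U.carrier := by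
  induction φ with
  | bot =>
    simp only [Sat, bval, false_iff]
    exact U.bot_notMem
  | mem i j =>
    simp only [Sat, bval]
    exact E_mk U _ _
  | eq i j =>
    simp only [Sat, bval]
    exact mk_eq_iff U _ _
  | imp φ ψ ih1 ih2 =>
    simp only [Sat, bval]
    rw [UF.himp_mem_iff, ih1, ih2]
  | all φ ih =>
    simp only [Sat, bval]
    rw [los_all U (bval_ext1 φ v)]
    have key : ∀ x : BSet 𝔹, (Fin.cons (Quotient.mk U.setoid x : Mod U)
        (fun i => (Quotient.mk U.setoid (v i) : Mod U)) : Fin (_ + 1) → Mod U) =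
        fun i => (Quotient.mk U.setoid ((Fin.cons x v : Fin (_ + 1) → BSet 𝔹) i) : Mod U) := by
      intro x
      funext i
      refine Fin.cases ?_ (fun j => ?_) i
      · rfl
      · rfl
    constructor
    · intro h x
      rw [← ih, ← key]
      exact h _
    · intro h x
      induction x using Quotient.inductionOn with
      | _ x =>
        rw [key, ih]
        exact h x

end Pool.Agent.BVM
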